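import Mathlib

set_option autoImplicit false

namespace Pool.Agent.W_MP_012456_co

/-- `G` is `Z_s`-colourable (group colourable for the cyclic group of order `s`): for every
antisymmetric shift function `σ` there is a map `x` into `ZMod s` whose difference along every
edge avoids the prescribed value. -/
def ShiftColourable {V : Type} (G : SimpleGraph V) (s : ℕ) : Prop :=
  ∀ σ : V → V → ZMod s, (∀ u v, σ v u = -σ u v) →
    ∃ x : V → ZMod s, ∀ u v, G.Adj u v → x v - x u ≠ σ u v

/-- `G` is DP-`s`-colourable (correspondence colouring): for every symmetric system of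
(possibly empty or non-perfect) matchings `M u v` between two copies of `ZMod s`
there is a choice `x` such that no edge is hit by its matching. -/
def DPColourable {V : Type} (G : SimpleGraph V) (s : ℕ) : Prop :=
  ∀ M : V → V → ZMod s → ZMod s → Prop,
    (∀ u v i j, M u v i j → M v u j i) →
    (∀ u v i j j', M u v i j → M u v i j' → j = j') →
    ∃ x : V → ZMod s, ∀ u v, G.Adj u v → ¬ M u v (x u) (x v)

/-- `G` is `d`-degenerate: every nonempty vertex set contains a vertex with at most `d`
neighbours in that set. -/
def Degenerate {V : Type} (G : SimpleGraph V) (d : ℕ) : Prop :=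
  ∀ S : Set V, S.Nonempty → ∃ v ∈ S, {u | u ∈ S ∧ G.Adj v u}.ncard ≤ d

theorem shiftColourable_of_DP {V : Type} (G : SimpleGraph V) (s : ℕ)
    (h : DPColourable G s) : ShiftColourable G s := by
  intro σ hσ
  obtain ⟨x, hx⟩ := h (fun u v i j => j - i = σ u v)
    (by
      intro u v i j hij
      show i - j = σ v u
      rw [hσ u v, ← hij]; ring)
    (by
      intro u v i j j' h1 h2
      have h1' : j - i = σ u v := h1
      have h2' : j' - i = σ u v := h2
      have : j - i = j' - i := by rw [h1', h2']
      exact sub_left_inj.mp this)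
  exact ⟨x, fun u v huv => hx u v huv⟩

theorem shiftColourable_of_degenerate {V : Type} [Fintype V] (G : SimpleGraph V) (s : ℕ)
    (hs : 1 ≤ s) (h : Degenerate G (s - 1)) : ShiftColourable G s := by
  classical
  intro σ hσ
  haveI : NeZero s := ⟨by omega⟩
  have key : ∀ (n : ℕ) (S : Finset V), S.card = n →
      ∃ x : V → ZMod s, ∀ u ∈ S, ∀ v ∈ S, G.Adj u v → x v - x u ≠ σ u v := by
    intro n
    induction n with
    | zero =>
      intro S hS
      rw [Finset.card_eq_zero] at hS
      subst hS
      exact ⟨fun _ => 0, fun u hu => by simp at hu⟩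
    | succ n ih =>
      intro S hS
      have hne : S.Nonempty := by
        rw [← Finset.card_pos]; omega
      obtain ⟨v, hv, hdeg⟩ := h (↑S : Set V) (by simpa using hne)
      have hv' : v ∈ S := by simpa using hv
      obtain ⟨x, hx⟩ := ih (S.erase v) (by rw [Finset.card_erase_of_mem hv']; omega)
      -- forbidden values for v
      let N : Finset V := S.filter (fun u => G.Adj v u)
      have hN : N.card ≤ s - 1 := by
        have : {u | u ∈ (↑S : Set V) ∧ G.Adj v u} = (↑N : Set V) := by
          ext u; simp [N]
        rw [this, Set.ncard_coe_finset] at hdeg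
        exact hdeg
      let F : Finset (ZMod s) := N.image (fun u => x u + σ u v)
      have hF : F.card < Fintype.card (ZMod s) := by
        rw [ZMod.card]
        have := Finset.card_image_le (s := N) (f := fun u => x u + σ u v)
        have h1 : F.card ≤ N.card := this
        omega
      obtain ⟨y, hy⟩ : ∃ y : ZMod s, y ∉ F := by
        by_contra hcon
        push Not at hcon
        have : F = Finset.univ := by
          ext z; simp [hcon z]
        rw [this, Finset.card_univ] at hF
        exact lt_irrefl _ hF
      refine ⟨Function.update x v y, ?_⟩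
      intro a ha b hb hab
      by_cases hav : a = v
      · subst hav
        have hba : b ≠ a := fun e => G.ne_of_adj hab e.symm
        rw [Function.update_self, Function.update_of_ne hba]
        intro heq
        apply hy
        have hbN : b ∈ N := by simp [N, hb, hab]
        refine Finset.mem_image.mpr ⟨b, hbN, ?_⟩
        rw [hσ a b, ← heq]; ring
      · by_cases hbv : b = v
        · subst hbv
          rw [Function.update_self, Function.update_of_ne hav]
          intro heq
          apply hy
          have haN : a ∈ N := by simp [N, ha, hab.symm]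
          refine Finset.mem_image.mpr ⟨a, haN, ?_⟩
          rw [← heq]; ring
        · rw [Function.update_of_ne hav, Function.update_of_ne hbv]
          exact hx a (Finset.mem_erase.mpr ⟨hav, ha⟩) b (Finset.mem_erase.mpr ⟨hbv, hb⟩) hab
  obtain ⟨x, hx⟩ := key _ Finset.univ rfl
  exact ⟨x, fun u v huv => hx u (Finset.mem_univ _) v (Finset.mem_univ _) huv⟩

/-- The exact packing of `s` list colourings of two-element lists. -/
theorem packing {V : Type} (G : SimpleGraph V) (s : ℕ) (hs : 2 ≤ s)
    (h : ShiftColourable G s) (L : V → Finset ℕ) (hL : ∀ v, (L v).card = 2) :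
    ∃ f : ZMod s → V → Option ℕ,
      (∀ k v c, f k v = some c → c ∈ L v) ∧
      (∀ k u v c, G.Adj u v → f k u = some c → f k v ≠ some c) ∧
      (∀ v, ∀ c ∈ L v, ∃! k, f k v = some c) := by
  classical
  haveI : Fact (1 < s) := ⟨by omega⟩
  have hab : ∀ v, ∃ p : ℕ × ℕ, p.1 < p.2 ∧ L v = {p.1, p.2} := by
    intro v
    obtain ⟨a, b, hne, hLv⟩ := Finset.card_eq_two.mp (hL v)
    rcases lt_or_gt_of_ne hne with hlt | hlt
    · exact ⟨(a, b), hlt, hLv⟩
    · exact ⟨(b, a), hlt, by rw [hLv, Finset.pair_comm]⟩
  choose p hp using hab
  let a : V → ℕ := fun v => (p v).1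
  let b : V → ℕ := fun v => (p v).2
  have hlt : ∀ v, a v < b v := fun v => (hp v).1
  have hLab : ∀ v, L v = {a v, b v} := fun v => (hp v).2
  let σ : V → V → ZMod s := fun u v => if a u = b v then -1 else if b u = a v then 1 else 0
  have hσ : ∀ u v, σ v u = -σ u v := by
    intro u v
    have h1 := hlt u
    have h2 := hlt v
    simp only [σ]
    by_cases e1 : a u = b v
    · have e2 : ¬ (a v = b u) := by omega
      have e3 : b v = a u := e1.symm
      rw [if_neg e2, if_pos e3, if_pos e1]; ring
    · by_cases e2 : b u = a v
      · have e3 : a v = b u := e2.symm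
        rw [if_pos e3, if_neg e1, if_pos e2]
      · have e3 : ¬ (a v = b u) := fun e => e2 e.symm
        have e4 : ¬ (b v = a u) := fun e => e1 e.symm
        rw [if_neg e3, if_neg e4, if_neg e1, if_neg e2]; ring
  obtain ⟨x, hx⟩ := h σ hσ
  have h01 : (1 : ZMod s) ≠ 0 := one_ne_zero
  have hxx : ∀ v, x v + 1 ≠ x v := by
    intro v e
    apply h01
    have : x v + 1 = x v + 0 := by rw [e, add_zero]
    exact add_left_cancel this
  let f : ZMod s → V → Option ℕ :=
    fun k v => if k = x v then some (a v) else if k = x v + 1 then some (b v) else none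
  have hf : ∀ k v c, f k v = some c →
      (k = x v ∧ c = a v) ∨ (k = x v + 1 ∧ c = b v) := by
    intro k v c hc
    simp only [f] at hc
    by_cases e1 : k = x v
    · rw [if_pos e1] at hc
      left; exact ⟨e1, (Option.some.inj hc).symm⟩
    · rw [if_neg e1] at hc
      by_cases e2 : k = x v + 1
      · rw [if_pos e2] at hc
        right; exact ⟨e2, (Option.some.inj hc).symm⟩
      · rw [if_neg e2] at hc
        exact absurd hc (by simp)
  refine ⟨f, ?_, ?_, ?_⟩
  · intro k v c hc
    rw [hLab v]
    rcases hf k v c hc with ⟨_, e⟩ | ⟨_, e⟩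
    · simp [e]
    · simp [e]
  · intro k u v c huv hu hv
    have hxuv := hx u v huv
    have h1 := hlt u
    have h2 := hlt v
    rcases hf k u c hu with ⟨ku, cu⟩ | ⟨ku, cu⟩ <;> rcases hf k v c hv with ⟨kv, cv⟩ | ⟨kv, cv⟩
    · apply hxuv
      have e1 : ¬ (a u = b v) := by omega
      have e2 : ¬ (b u = a v) := by omega
      simp only [σ]
      rw [if_neg e1, if_neg e2, ← kv, ← ku, sub_self]
    · apply hxuv
      have e1 : a u = b v := by omega
      simp only [σ]
      rw [if_pos e1]
      have : x u = x v + 1 := by rw [← ku, kv]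
      rw [this]; ring
    · apply hxuv
      have e1 : ¬ (a u = b v) := by omega
      have e2 : b u = a v := by omega
      simp only [σ]
      rw [if_neg e1, if_pos e2]
      have : x v = x u + 1 := by rw [← kv, ku]
      rw [this]; ring
    · apply hxuv
      have e1 : ¬ (a u = b v) := by omega
      have e2 : ¬ (b u = a v) := by omega
      simp only [σ]
      rw [if_neg e1, if_neg e2]
      have : x u + 1 = x v + 1 := by rw [← ku, kv]
      have : x u = x v := add_right_cancel this
      rw [this, sub_self]
  · intro v c hc
    rw [hLab v] at hc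
    simp only [Finset.mem_insert, Finset.mem_singleton] at hc
    have h2 := hlt v
    rcases hc with e | e
    · refine ⟨x v, ?_, ?_⟩
      · simp only [f]
        rw [if_pos trivial, e]
      · intro k hk
        rcases hf k v c hk with ⟨h3, _⟩ | ⟨_, h4⟩
        · exact h3
        · omega
    · refine ⟨x v + 1, ?_, ?_⟩
      · simp only [f]
        rw [if_neg (hxx v), if_pos trivial, e]
      · intro k hk
        rcases hf k v c hk with ⟨_, h4⟩ | ⟨h3, _⟩
        · omega
        · exact h3

/-- Averaging over the packing. -/
theorem large_of_packing {V : Type} [Fintype V] (G : SimpleGraph V) (s : ℕ) (hs : 2 ≤ s)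
    (L : V → Finset ℕ) (hL : ∀ v, (L v).card = 2)
    (f : ZMod s → V → Option ℕ)
    (h1 : ∀ k v c, f k v = some c → c ∈ L v)
    (h2 : ∀ k u v c, G.Adj u v → f k u = some c → f k v ≠ some c)
    (h3 : ∀ v, ∀ c ∈ L v, ∃! k, f k v = some c) :
    ∃ S : Finset V, ∃ c : V → ℕ,
      (∀ v ∈ S, c v ∈ L v) ∧
      (∀ u ∈ S, ∀ v ∈ S, G.Adj u v → c u ≠ c v) ∧
      2 * Fintype.card V ≤ s * S.card := by
  classical
  haveI : NeZero s := ⟨by omega⟩
  let T : ZMod s → Finset V := fun k => Finset.univ.filter (fun v => (f k v).isSome)
  have hsum : ∑ k : ZMod s, (T k).card = 2 * Fintype.card V := by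
    have e1 : ∑ k : ZMod s, (T k).card
        = ∑ k : ZMod s, ∑ v : V, (if (f k v).isSome then 1 else 0) := by
      apply Finset.sum_congr rfl
      intro k _
      simp only [T, Finset.card_filter]
    rw [e1, Finset.sum_comm]
    have e2 : ∀ v : V, ∑ k : ZMod s, (if (f k v).isSome then 1 else 0) = 2 := by
      intro v
      rw [← Finset.card_filter, ← hL v]
      symm
      apply Finset.card_bij (fun c hc => (h3 v c hc).choose)
      · intro c hc
        have := (h3 v c hc).choose_spec.1
        simp only at this
        simp [this]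
      · intro c hc c' hc' e
        have g1 := (h3 v c hc).choose_spec.1
        have g2 := (h3 v c' hc').choose_spec.1
        simp only at g1 g2
        rw [e] at g1
        rw [g1] at g2
        exact Option.some.inj g2
      · intro k hk
        simp only [Finset.mem_filter, Finset.mem_univ, true_and] at hk
        obtain ⟨c, hc⟩ := Option.isSome_iff_exists.mp hk
        refine ⟨c, h1 k v c hc, ?_⟩
        exact ((h3 v c (h1 k v c hc)).choose_spec.2 k hc).symm
    rw [Finset.sum_congr rfl (fun v _ => e2 v)]
    simp [Finset.card_univ, mul_comm]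
  obtain ⟨k, hk⟩ : ∃ k : ZMod s, 2 * Fintype.card V ≤ s * (T k).card := by
    by_contra hcon
    push Not at hcon
    have : ∑ k : ZMod s, s * (T k).card < ∑ k : ZMod s, 2 * Fintype.card V := by
      apply Finset.sum_lt_sum_of_nonempty Finset.univ_nonempty
      intro k _
      exact hcon k
    rw [← Finset.mul_sum, hsum, Finset.sum_const, Finset.card_univ, ZMod.card, smul_eq_mul] at this
    exact lt_irrefl _ this
  refine ⟨T k, fun v => (f k v).getD 0, ?_, ?_, hk⟩
  · intro v hv
    simp only [T, Finset.mem_filter, Finset.mem_univ, true_and] at hv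
    obtain ⟨c, hc⟩ := Option.isSome_iff_exists.mp hv
    show (f k v).getD 0 ∈ L v
    rw [hc]
    exact h1 k v c hc
  · intro u hu v hv huv
    simp only [T, Finset.mem_filter, Finset.mem_univ, true_and] at hu hv
    obtain ⟨c, hc⟩ := Option.isSome_iff_exists.mp hu
    obtain ⟨c', hc'⟩ := Option.isSome_iff_exists.mp hv
    show (f k u).getD 0 ≠ (f k v).getD 0
    rw [hc, hc']
    intro e
    have e' : c = c' := e
    subst e'
    exact h2 k u v c huv hc hc'

end Pool.Agent.W_MP_012456_co
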