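import Mathlib
import Pool.Agent.W_MP_012456_co.Defs

set_option autoImplicit false

namespace Pool.Agent.W_MP_012456_co

/-- Packing from coherent offsets: `φ v` is injective on `L v` and along every edge the
difference `φ u c - φ v c` is the same for all common colours `c`. -/
theorem packing_of_offsets {V : Type} (G : SimpleGraph V) (s : ℕ)
    (h : ShiftColourable G s) (L : V → Finset ℕ) (φ : V → ℕ → ZMod s)
    (hinj : ∀ v, ∀ c ∈ L v, ∀ c' ∈ L v, φ v c = φ v c' → c = c')
    (hcoh : ∀ u v, G.Adj u v → ∀ c ∈ L u, c ∈ L v → ∀ c' ∈ L u, c' ∈ L v →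
      φ u c - φ v c = φ u c' - φ v c') :
    ∃ f : ZMod s → V → Option ℕ,
      (∀ k v c, f k v = some c → c ∈ L v) ∧
      (∀ k u v c, G.Adj u v → f k u = some c → f k v ≠ some c) ∧
      (∀ v, ∀ c ∈ L v, ∃! k, f k v = some c) := by
  classical
  -- shift function
  let σ : V → V → ZMod s := fun u v =>
    if hx : ∃ c, c ∈ L u ∧ c ∈ L v ∧ G.Adj u v then φ u hx.choose - φ v hx.choose else 0
  have hσval : ∀ u v c, G.Adj u v → c ∈ L u → c ∈ L v → σ u v = φ u c - φ v c := by
    intro u v c huv hcu hcv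
    have hx : ∃ c, c ∈ L u ∧ c ∈ L v ∧ G.Adj u v := ⟨c, hcu, hcv, huv⟩
    simp only [σ]
    rw [dif_pos hx]
    exact hcoh u v huv _ hx.choose_spec.1 hx.choose_spec.2.1 c hcu hcv
  have hσ : ∀ u v, σ v u = -σ u v := by
    intro u v
    by_cases hx : ∃ c, c ∈ L u ∧ c ∈ L v ∧ G.Adj u v
    · obtain ⟨c, hcu, hcv, huv⟩ := hx
      rw [hσval u v c huv hcu hcv, hσval v u c huv.symm hcv hcu]; ring
    · have hx' : ¬ ∃ c, c ∈ L v ∧ c ∈ L u ∧ G.Adj v u := by
        rintro ⟨c, h1, h2, h3⟩
        exact hx ⟨c, h2, h1, h3.symm⟩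
      simp only [σ]
      rw [dif_neg hx, dif_neg hx', neg_zero]
  obtain ⟨x, hx⟩ := h σ hσ
  let f : ZMod s → V → Option ℕ := fun k v =>
    if hc : ∃ c, c ∈ L v ∧ k = x v + φ v c then some hc.choose else none
  have hf : ∀ k v c, f k v = some c → c ∈ L v ∧ k = x v + φ v c := by
    intro k v c hc
    simp only [f] at hc
    by_cases e : ∃ c, c ∈ L v ∧ k = x v + φ v c
    · rw [dif_pos e] at hc
      have := e.choose_spec
      rw [Option.some.inj hc] at this
      exact this
    · rw [dif_neg e] at hc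
      exact absurd hc (by simp)
  have hf' : ∀ v c, c ∈ L v → f (x v + φ v c) v = some c := by
    intro v c hc
    have e : ∃ c', c' ∈ L v ∧ x v + φ v c = x v + φ v c' := ⟨c, hc, rfl⟩
    simp only [f]
    rw [dif_pos e]
    have h1 := e.choose_spec.1
    have h2 := e.choose_spec.2
    have h3 : φ v c = φ v e.choose := add_left_cancel h2
    rw [← hinj v c hc _ h1 h3]
  refine ⟨f, ?_, ?_, ?_⟩
  · intro k v c hc
    exact (hf k v c hc).1
  · intro k u v c huv hu hv
    obtain ⟨hcu, hku⟩ := hf k u c hu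
    obtain ⟨hcv, hkv⟩ := hf k v c hv
    apply hx u v huv
    rw [hσval u v c huv hcu hcv]
    have : x u + φ u c = x v + φ v c := by rw [← hku, ← hkv]
    linear_combination -this
  · intro v c hc
    refine ⟨x v + φ v c, hf' v c hc, ?_⟩
    intro k hk
    exact (hf k v c hk).2

/-- An injection of a finite colour set of size at most `s` into `ZMod s`. -/
theorem exists_offset (s : ℕ) (hs : 1 ≤ s) (A : Finset ℕ) (hA : A.card ≤ s) :
    ∃ φ : ℕ → ZMod s, ∀ c ∈ A, ∀ c' ∈ A, φ c = φ c' → c = c' := by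
  classical
  have : NeZero s := ⟨by omega⟩
  have hcard : Fintype.card {c // c ∈ A} ≤ Fintype.card (ZMod s) := by
    rw [ZMod.card, Fintype.card_coe]; exact hA
  obtain ⟨g⟩ := Function.Embedding.nonempty_of_card_le hcard
  refine ⟨fun c => if h : c ∈ A then g ⟨c, h⟩ else 0, ?_⟩
  intro c hc c' hc' e
  simp only [dif_pos hc, dif_pos hc'] at e
  have := g.injective e
  exact congrArg Subtype.val this

/-- Adjacent lists equal or with at most one common colour. -/
theorem packing_separated {V : Type} (G : SimpleGraph V) (s : ℕ) (hs : 1 ≤ s)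
    (h : ShiftColourable G s) (L : V → Finset ℕ) (hL : ∀ v, (L v).card ≤ s)
    (hsep : ∀ u v, G.Adj u v → L u = L v ∨ (L u ∩ L v).card ≤ 1) :
    ∃ f : ZMod s → V → Option ℕ,
      (∀ k v c, f k v = some c → c ∈ L v) ∧
      (∀ k u v c, G.Adj u v → f k u = some c → f k v ≠ some c) ∧
      (∀ v, ∀ c ∈ L v, ∃! k, f k v = some c) := by
  classical
  have hex : ∀ A : Finset ℕ, ∃ φ : ℕ → ZMod s, A.card ≤ s →
      ∀ c ∈ A, ∀ c' ∈ A, φ c = φ c' → c = c' := by
    intro A
    by_cases hA : A.card ≤ s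
    · obtain ⟨φ, hφ⟩ := exists_offset s hs A hA
      exact ⟨φ, fun _ => hφ⟩
    · exact ⟨fun _ => 0, fun h => absurd h hA⟩
  choose ψ hψ using hex
  apply packing_of_offsets G s h L (fun v => ψ (L v))
  · intro v c hc c' hc' e
    exact hψ (L v) (hL v) c hc c' hc' e
  · intro u v huv c hcu hcv c' hcu' hcv'
    rcases hsep u v huv with e | e
    · show ψ (L u) c - ψ (L v) c = ψ (L u) c' - ψ (L v) c'
      rw [e]; ring
    · have h1 : c ∈ L u ∩ L v := Finset.mem_inter.mpr ⟨hcu, hcv⟩
      have h2 : c' ∈ L u ∩ L v := Finset.mem_inter.mpr ⟨hcu', hcv'⟩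
      have : c = c' := Finset.card_le_one.mp e c h1 c' h2
      rw [this]

/-- Averaging over the packing. -/
theorem large_of_packing' {V : Type} [Fintype V] (G : SimpleGraph V) (s : ℕ) (hs : 1 ≤ s)
    (L : V → Finset ℕ)
    (f : ZMod s → V → Option ℕ)
    (h1 : ∀ k v c, f k v = some c → c ∈ L v)
    (h2 : ∀ k u v c, G.Adj u v → f k u = some c → f k v ≠ some c)
    (h3 : ∀ v, ∀ c ∈ L v, ∃! k, f k v = some c) :
    ∃ S : Finset V, ∃ c : V → ℕ,
      (∀ v ∈ S, c v ∈ L v) ∧
      (∀ u ∈ S, ∀ v ∈ S, G.Adj u v → c u ≠ c v) ∧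
      ∑ v : V, (L v).card ≤ s * S.card := by
  classical
  have : NeZero s := ⟨by omega⟩
  let T : ZMod s → Finset V := fun k => Finset.univ.filter (fun v => (f k v).isSome)
  have hsum : ∑ k : ZMod s, (T k).card = ∑ v : V, (L v).card := by
    have e1 : ∑ k : ZMod s, (T k).card
        = ∑ k : ZMod s, ∑ v : V, (if (f k v).isSome then 1 else 0) := by
      apply Finset.sum_congr rfl
      intro k _
      simp only [T, Finset.card_filter]
    rw [e1, Finset.sum_comm]
    apply Finset.sum_congr rfl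
    intro v _
    rw [← Finset.card_filter]
    symm
    apply Finset.card_bij (fun c hc => (h3 v c hc).choose)
    · intro c hc
      have := (h3 v c hc).choose_spec.1
      simp only at this
      simp [this]
    · intro c hc c' hc' e
      have g1 := (h3 v c hc).choose_spec.1
      have g2 := (h3 v c' hc').choose_spec.1
      simp only at g1 g2
      rw [e] at g1
      rw [g1] at g2
      exact Option.some.inj g2
    · intro k hk
      simp only [Finset.mem_filter, Finset.mem_univ, true_and] at hk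
      obtain ⟨c, hc⟩ := Option.isSome_iff_exists.mp hk
      refine ⟨c, h1 k v c hc, ?_⟩
      exact ((h3 v c (h1 k v c hc)).choose_spec.2 k hc).symm
  obtain ⟨k, hk⟩ : ∃ k : ZMod s, ∑ v : V, (L v).card ≤ s * (T k).card := by
    by_contra hcon
    push Not at hcon
    have : ∑ k : ZMod s, s * (T k).card < ∑ k : ZMod s, ∑ v : V, (L v).card := by
      apply Finset.sum_lt_sum_of_nonempty Finset.univ_nonempty
      intro k _
      exact hcon k
    rw [← Finset.mul_sum, hsum, Finset.sum_const, Finset.card_univ, ZMod.card, smul_eq_mul] at this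
    exact lt_irrefl _ this
  refine ⟨T k, fun v => (f k v).getD 0, ?_, ?_, hk⟩
  · intro v hv
    simp only [T, Finset.mem_filter, Finset.mem_univ, true_and] at hv
    obtain ⟨c, hc⟩ := Option.isSome_iff_exists.mp hv
    show (f k v).getD 0 ∈ L v
    rw [hc]
    exact h1 k v c hc
  · intro u hu v hv huv
    simp only [T, Finset.mem_filter, Finset.mem_univ, true_and] at hu hv
    obtain ⟨c, hc⟩ := Option.isSome_iff_exists.mp hu
    obtain ⟨c', hc'⟩ := Option.isSome_iff_exists.mp hv
    show (f k u).getD 0 ≠ (f k v).getD 0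
    rw [hc, hc']
    intro e
    have e' : c = c' := e
    subst e'
    exact h2 k u v c huv hc hc'

end Pool.Agent.W_MP_012456_co
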